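import Pool.Agent.helper96.PP2.SpecC

set_option autoImplicit false

namespace Pool.Agent.PP2

open Topology Matrix

theorem MOX_mem {R : Type} [CommRing R] (C : Subring R) (X Y : M2 R) :
    Y ∈ CX C X ↔ ∃ c ∈ C, c • X = Y := by
  unfold CX
  rw [AddSubgroup.mem_map]
  rfl

theorem MOX_closed {R : Type} [CommRing R] [TopologicalSpace R] [IsTopologicalRing R]
    [CompactSpace R] [T2Space R] (C : Subring R) (X : M2 R) (hC : IsClosed (C : Set R)) :
    IsClosed (CX C X : Set (M2 R)) := by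
  have h : (CX C X : Set (M2 R)) = (fun c : R => c • X) '' (C : Set R) := by
    ext Y
    rw [SetLike.mem_coe, MOX_mem]
    rfl
  rw [h]
  have hcont : Continuous (fun c : R => c • X) := continuous_id.smul continuous_const
  exact (hC.isCompact.image hcont).isClosed

theorem MOX_row (hHAV : HAV_stmt) : MOX_stmt := by
  intro p R _ _ _ _ _ _ J hp hp2 hS C X hC hX hJ hB
  have hcl := MOX_closed C X hC
  refine ⟨hcl, ?_, ?_, ?_, ?_, ?_⟩
  · intro Y hY
    obtain ⟨c, _, rfl⟩ := (MOX_mem C X Y).1 hY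
    rw [Matrix.trace_smul, hX, smul_zero]
  · intro Y hY i j
    obtain ⟨c, _, rfl⟩ := (MOX_mem C X Y).1 hY
    rw [Matrix.smul_apply, smul_eq_mul]
    exact J.mul_mem_left _ (hJ i j)
  · exact (hHAV p R J hp hp2 hS).1 _ hcl
  · intro Y hY Z hZ
    obtain ⟨c, _, rfl⟩ := (MOX_mem C X Y).1 hY
    obtain ⟨d, _, rfl⟩ := (MOX_mem C X Z).1 hZ
    rw [Lib_Br_smul, Lib_smul_Br, Lib_Br_self, smul_zero, smul_zero]
    exact zero_mem _
  · intro Y hY Z hZ W hW
    obtain ⟨c, hc, rfl⟩ := (MOX_mem C X Y).1 hY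
    obtain ⟨d, hd, rfl⟩ := (MOX_mem C X Z).1 hZ
    obtain ⟨e, he, rfl⟩ := (MOX_mem C X W).1 hW
    rw [Lib_Bf_smul, Lib_smul_Bf, smul_smul, MOX_mem]
    exact ⟨_, C.mul_mem (C.mul_mem hd (C.mul_mem hc hB)) he, rfl⟩

end Pool.Agent.PP2
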