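import Pool.Agent.helper96.PP2.SpecC

set_option autoImplicit false

namespace Pool.Agent.PP2

open Topology Matrix

theorem PID_mem {R : Type} [CommRing R] (C : Subring R) (X Y : M2 R) :
    Y ∈ CX C X ↔ ∃ c ∈ C, c • X = Y := by
  unfold CX
  rw [AddSubgroup.mem_map]
  rfl

theorem PID_smem {R : Type} [CommRing R] (c : R) (N : AddSubgroup (M2 R)) (Y : M2 R) :
    Y ∈ sN c N ↔ ∃ X ∈ N, c • X = Y := by
  unfold sN
  rw [AddSubgroup.mem_map]
  rfl

/-- the image of a compact group is compact -/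
theorem PID_comp {R : Type} [CommRing R] [TopologicalSpace R] [IsTopologicalRing R]
    [CompactSpace R] [T2Space R] (c : R) (N : AddSubgroup (M2 R)) (hN : IsClosed (N : Set (M2 R))) :
    IsCompact (sN c N : Set (M2 R)) := by
  have h : (sN c N : Set (M2 R)) = (fun X : M2 R => c • X) '' (N : Set (M2 R)) := by
    ext Y
    rw [SetLike.mem_coe, PID_smem]
    rfl
  rw [h]
  have hcont : Continuous (fun X : M2 R => c • X) := continuous_id.const_smul c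
  have hcomp : CompactSpace (M2 R) := inferInstanceAs (CompactSpace (Fin 2 → Fin 2 → R))
  exact hN.isCompact.image hcont

theorem PID_sup_closed {R : Type} [CommRing R] [TopologicalSpace R] [IsTopologicalRing R]
    [CompactSpace R] [T2Space R] (N₁ N₂ : AddSubgroup (M2 R)) (h₁ : IsCompact (N₁ : Set (M2 R)))
    (h₂ : IsCompact (N₂ : Set (M2 R))) : IsClosed ((N₁ ⊔ N₂ : AddSubgroup (M2 R)) : Set (M2 R)) := by
  have h : ((N₁ ⊔ N₂ : AddSubgroup (M2 R)) : Set (M2 R)) =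
      (fun x : M2 R × M2 R => x.1 + x.2) '' ((N₁ : Set (M2 R)) ×ˢ (N₂ : Set (M2 R))) := by
    ext Y
    rw [SetLike.mem_coe, AddSubgroup.mem_sup]
    constructor
    · rintro ⟨y, hy, z, hz, rfl⟩
      exact ⟨(y, z), ⟨hy, hz⟩, rfl⟩
    · rintro ⟨⟨y, z⟩, ⟨hy, hz⟩, rfl⟩
      exact ⟨y, hy, z, hz, rfl⟩
  rw [h]
  exact ((h₁.prod h₂).image (continuous_fst.add continuous_snd)).isClosed

theorem PID_row (hHAV : HAV_stmt) (hMOX : MOX_stmt) : PID_stmt := by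
  intro p R _ _ _ _ _ _ J hp hp2 hS C X hC hX hJ hB
  have hN := hMOX p R J hp hp2 hS C X hC hX hJ hB
  have hq : ⅟(2 : R) * Bf X X ∈ C := (hHAV p R J hp hp2 hS).2 C.toAddSubgroup hC _ hB
  -- brackets vanish
  have hbr : ∀ Y ∈ CX C X, ∀ Z ∈ CX C X, Br Y Z = 0 := by
    intro Y hY Z hZ
    obtain ⟨c, _, rfl⟩ := (PID_mem C X Y).1 hY
    obtain ⟨d, _, rfl⟩ := (PID_mem C X Z).1 hZ
    rw [Lib_Br_smul, Lib_smul_Br, Lib_Br_self, smul_zero, smul_zero]
  have hbf : ∀ Y ∈ CX C X, ∀ Z ∈ CX C X, Bf Y Z ∈ C := by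
    intro Y hY Z hZ
    obtain ⟨c, hc, rfl⟩ := (PID_mem C X Y).1 hY
    obtain ⟨d, hd, rfl⟩ := (PID_mem C X Z).1 hZ
    rw [Lib_Bf_smul, Lib_smul_Bf]
    exact C.mul_mem hd (C.mul_mem hc hB)
  -- closed under C
  have hCN : ∀ c ∈ C, ∀ Y ∈ CX C X, c • Y ∈ CX C X := by
    intro c hc Y hY
    obtain ⟨d, hd, rfl⟩ := (PID_mem C X Y).1 hY
    rw [smul_smul, PID_mem]
    exact ⟨_, C.mul_mem hc hd, rfl⟩
  have hsC : ∀ (r : R), ∀ c ∈ C, ∀ Y ∈ sN r (CX C X), c • Y ∈ sN r (CX C X) := by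
    intro r c hc Y hY
    obtain ⟨Z, hZ, rfl⟩ := (PID_smem r _ Y).1 hY
    rw [PID_smem]
    exact ⟨c • Z, hCN c hc Z hZ, smul_comm _ _ _⟩
  constructor
  · refine ⟨bot_le, ⟨?_, ?_, ?_, ?_, ?_, ?_⟩, hN, ?_, ?_, ?_⟩
    · rw [AddSubgroup.coe_bot]
      exact isClosed_singleton
    · intro Y hY
      rw [AddSubgroup.mem_bot] at hY
      rw [hY, Matrix.trace_zero]
    · intro Y hY i j
      rw [AddSubgroup.mem_bot] at hY
      rw [hY]
      exact J.zero_mem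
    · intro Y hY
      rw [AddSubgroup.mem_bot] at hY ⊢
      rw [hY, smul_zero]
    · intro Y hY Z hZ
      rw [AddSubgroup.mem_bot] at hY hZ ⊢
      rw [hY, hZ, Lib_Br_self]
    · intro Y hY Z hZ W hW
      rw [AddSubgroup.mem_bot] at hW ⊢
      rw [hW, smul_zero]
    · intro Y hY Z hZ
      rw [AddSubgroup.mem_bot] at hY ⊢
      rw [hY]
      simp [Br]
    · intro Y hY Z hZ W hW
      rw [AddSubgroup.mem_bot] at hY ⊢
      rw [hY]
      simp [Bf]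
    · intro Y hY Z hZ W hW
      rw [AddSubgroup.mem_bot] at hY ⊢
      rw [hY, smul_zero]
  · intro m
    have hqm : (⅟(2 : R) * Bf X X) ^ m ∈ C := C.pow_mem hq m
    have hpC : (p : R) ∈ C := natCast_mem C p
    have hle : sN (p : R) (CX C X) ⊔ sN ((⅟(2 : R) * Bf X X) ^ m) (CX C X) ≤ CX C X := by
      refine sup_le ?_ ?_
      · intro Y hY
        obtain ⟨Z, hZ, rfl⟩ := (PID_smem _ _ Y).1 hY
        exact hCN _ hpC Z hZ
      · intro Y hY
        obtain ⟨Z, hZ, rfl⟩ := (PID_smem _ _ Y).1 hY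
        exact hCN _ hqm Z hZ
    have hcl : IsClosed ((sN (p : R) (CX C X) ⊔ sN ((⅟(2 : R) * Bf X X) ^ m) (CX C X) :
        AddSubgroup (M2 R)) : Set (M2 R)) :=
      PID_sup_closed _ _ (PID_comp _ _ hN.closed) (PID_comp _ _ hN.closed)
    have hCs : ∀ c ∈ C, ∀ Y ∈ (sN (p : R) (CX C X) ⊔ sN ((⅟(2 : R) * Bf X X) ^ m) (CX C X)),
        c • Y ∈ (sN (p : R) (CX C X) ⊔ sN ((⅟(2 : R) * Bf X X) ^ m) (CX C X)) := by
      intro c hc Y hY
      obtain ⟨y, hy, z, hz, rfl⟩ := AddSubgroup.mem_sup.1 hY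
      rw [smul_add]
      exact AddSubgroup.mem_sup.2 ⟨_, hsC _ c hc y hy, _, hsC _ c hc z hz, rfl⟩
    refine ⟨hle, ⟨hcl, ?_, ?_, ?_, ?_, ?_⟩, hN, ?_, ?_, ?_⟩
    · intro Y hY
      exact hN.tr Y (hle hY)
    · intro Y hY
      exact hN.ent Y (hle hY)
    · exact (hHAV p R J hp hp2 hS).1 _ hcl
    · intro Y hY Z hZ
      rw [hbr Y (hle hY) Z (hle hZ)]
      exact zero_mem _
    · intro Y hY Z hZ W hW
      exact hCs _ (hbf Y (hle hY) Z (hle hZ)) W hW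
    · intro Y hY Z hZ
      rw [hbr Y (hle hY) Z hZ]
      exact zero_mem _
    · intro W hW U hU V hV
      obtain ⟨w, hw, rfl⟩ := (PID_mem C X W).1 (hle hW)
      obtain ⟨u, hu, rfl⟩ := (PID_mem C X U).1 hU
      obtain ⟨v, hv, rfl⟩ := (PID_mem C X V).1 hV
      have h1 := hCs (u * v * Bf X X) (C.mul_mem (C.mul_mem hu hv) hB) _ hW
      have h2 : Bf (w • X) (u • X) • v • X = (u * v * Bf X X) • w • X := by
        rw [Lib_Bf_smul, Lib_smul_Bf, smul_smul, smul_smul]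
        congr 1
        ring
      rw [h2]
      exact h1
    · intro W hW U hU V hV
      exact hCs _ (hbf U hU V hV) W hW

end Pool.Agent.PP2
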