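import Pool.Agent.helper96.PP2.SpecC

set_option autoImplicit false

namespace Pool.Agent.PP2

open Topology Matrix

theorem PMV_mem {R : Type} [CommRing R] (c : R) (N : AddSubgroup (M2 R)) (Y : M2 R) :
    Y ∈ sN c N ↔ ∃ X ∈ N, c • X = Y := by
  unfold sN
  rw [AddSubgroup.mem_map]
  rfl

theorem PMV_closed {R : Type} [CommRing R] [TopologicalSpace R] [IsTopologicalRing R]
    [CompactSpace R] [T2Space R] (c : R) (N : AddSubgroup (M2 R)) (hN : IsClosed (N : Set (M2 R))) :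
    IsClosed (sN c N : Set (M2 R)) := by
  have h : (sN c N : Set (M2 R)) = (fun X : M2 R => c • X) '' (N : Set (M2 R)) := by
    ext Y
    rw [SetLike.mem_coe, PMV_mem]
    rfl
  rw [h]
  have hcont : Continuous (fun X : M2 R => c • X) := continuous_id.const_smul c
  have hcomp : CompactSpace (M2 R) := inferInstanceAs (CompactSpace (Fin 2 → Fin 2 → R))
  exact (hN.isCompact.image hcont).isClosed

theorem PMV_pow {R : Type} [CommRing R] (p k : ℕ) (V : AddSubgroup (M2 R)) (X : M2 R)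
    (hX : X ∈ V) : ((p : R) ^ k) • X ∈ V := by
  have h : ((p : R) ^ k) • X = (p ^ k) • X := by
    rw [← Nat.cast_pow, Nat.cast_smul_eq_nsmul]
  rw [h]
  exact V.nsmul_mem hX _

theorem PMV_adm (hHAV : HAV_stmt) (p : ℕ) (R : Type) [CommRing R] [TopologicalSpace R]
    [IsTopologicalRing R] [CompactSpace R] [T2Space R] [Invertible (2 : R)] (J : Ideal R)
    (hp : p.Prime) (hp2 : p ≠ 2) (hS : Setup p R J) (V : AddSubgroup (M2 R)) (hV : Adm J V)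
    (m : ℕ) : Adm J (sN ((p : R) ^ m) V) := by
  have hcl := PMV_closed ((p : R) ^ m) V hV.closed
  refine ⟨hcl, ?_, ?_, ?_, ?_, ?_⟩
  · intro Y hY
    obtain ⟨X, hX, rfl⟩ := (PMV_mem _ _ Y).1 hY
    rw [Matrix.trace_smul, hV.tr X hX, smul_zero]
  · intro Y hY i j
    obtain ⟨X, hX, rfl⟩ := (PMV_mem _ _ Y).1 hY
    rw [Matrix.smul_apply, smul_eq_mul]
    exact J.mul_mem_left _ (hV.ent X hX i j)
  · exact (hHAV p R J hp hp2 hS).1 _ hcl
  · intro Y hY Z hZ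
    obtain ⟨X, hX, rfl⟩ := (PMV_mem _ _ Y).1 hY
    obtain ⟨W, hW, rfl⟩ := (PMV_mem _ _ Z).1 hZ
    rw [Lib_Br_smul, PMV_mem]
    refine ⟨_, ?_, rfl⟩
    rw [Lib_smul_Br]
    exact PMV_pow p m V _ (hV.br X hX W hW)
  · intro Y hY Z hZ U hU
    obtain ⟨X, hX, rfl⟩ := (PMV_mem _ _ Y).1 hY
    obtain ⟨W, hW, rfl⟩ := (PMV_mem _ _ Z).1 hZ
    obtain ⟨T, hT, rfl⟩ := (PMV_mem _ _ U).1 hU
    rw [PMV_mem]
    refine ⟨((p : R) ^ m) • (((p : R) ^ m) • (Bf X W • T)), ?_, ?_⟩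
    · exact PMV_pow p m V _ (PMV_pow p m V _ (hV.bf X hX W hW T hT))
    · rw [Lib_Bf_smul, Lib_smul_Bf]
      simp only [smul_smul]
      congr 1
      ring

theorem PMV_row (hHAV : HAV_stmt) : PMV_stmt := by
  intro p R _ _ _ _ _ _ J hp hp2 hS V hV m m' hm
  have h1 := PMV_adm hHAV p R J hp hp2 hS V hV
  refine ⟨h1 m, ⟨?_, h1 m', h1 m, ?_, ?_, ?_⟩⟩
  · intro Y hY
    obtain ⟨X, hX, rfl⟩ := (PMV_mem _ _ Y).1 hY
    rw [PMV_mem]
    refine ⟨((p : R) ^ (m' - m)) • X, PMV_pow p _ V X hX, ?_⟩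
    rw [smul_smul, ← pow_add]
    congr 2
    omega
  · intro Y hY Z hZ
    obtain ⟨X, hX, rfl⟩ := (PMV_mem _ _ Y).1 hY
    obtain ⟨W, hW, rfl⟩ := (PMV_mem _ _ Z).1 hZ
    rw [Lib_smul_Br, PMV_mem]
    refine ⟨_, ?_, rfl⟩
    rw [Lib_Br_smul]
    exact PMV_pow p m V _ (hV.br X hX W hW)
  · intro Y hY Z hZ U hU
    obtain ⟨X, hX, rfl⟩ := (PMV_mem _ _ Y).1 hY
    obtain ⟨W, hW, rfl⟩ := (PMV_mem _ _ Z).1 hZ
    obtain ⟨T, hT, rfl⟩ := (PMV_mem _ _ U).1 hU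
    rw [PMV_mem]
    refine ⟨((p : R) ^ m) • (((p : R) ^ m) • (Bf X W • T)), ?_, ?_⟩
    · exact PMV_pow p m V _ (PMV_pow p m V _ (hV.bf X hX W hW T hT))
    · rw [Lib_Bf_smul, Lib_smul_Bf]
      simp only [smul_smul]
      congr 1
      ring
  · intro Y hY Z hZ U hU
    obtain ⟨X, hX, rfl⟩ := (PMV_mem _ _ Y).1 hY
    obtain ⟨W, hW, rfl⟩ := (PMV_mem _ _ Z).1 hZ
    obtain ⟨T, hT, rfl⟩ := (PMV_mem _ _ U).1 hU
    rw [PMV_mem]
    refine ⟨((p : R) ^ m) • (((p : R) ^ m) • (Bf W T • X)), ?_, ?_⟩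
    · exact PMV_pow p m V _ (PMV_pow p m V _ (hV.bf W hW T hT X hX))
    · rw [Lib_Bf_smul, Lib_smul_Bf]
      simp only [smul_smul]
      congr 1
      ring

end Pool.Agent.PP2
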